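import Mathlib
import Pool.Agent.W522.T.C3
import Pool.Agent.W522.S.S16

/-!
# Traceless families
-/

set_option linter.unusedSectionVars false

namespace Pool.Agent.W522.H

open Module Pool.Agent.H204R3.SP Pool.Agent.H204R3.GP Pool.Agent.W522.U
open Pool.Agent.W522.T (h0 types_h0 exists_elem span_types sdd om om_self om_two exists_area
  trace_one_dim)

noncomputable section

variable {K : Type*} [Field K] [CharZero K]
  {I : Type*} [Fintype I] [DecidableEq I] {E : I → Type*} [∀ i, AddCommGroup (E i)]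
  [∀ i, Module K (E i)] [∀ i, FiniteDimensional K (E i)] {G : Type*} [Group G]
  {r : ∀ i, Representation K G (E i)} {χ : G →* K}
  (ω : (∀ i, E i) →ₗ[K] (∀ i, E i) →ₗ[K] K) (halt : ∀ u, ω u u = 0)
  (hnd : ∀ u, (∀ w, ω u w = 0) → u = 0)
  (hωρ : ∀ g u v, ω (piRep r g u) (piRep r g v) = χ g * ω u v)
  (st : I → I) (hst : ∀ i, st (st i) = i)
  (hor : ∀ i j, j ≠ st i → ∀ (u : E i) (v : E j), ω (Pi.single i u) (Pi.single j v) = 0)
  (htw : ∀ i j, i ≠ j → 2 ≤ finrank K (E i) → 2 ≤ finrank K (E j) →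
    (j = st i → 2 < finrank K (E i)) →
    ∀ (T : E i →ₗ[K] E j) (ψ : G → K), (∀ g u, T (r i g u) = ψ g • r j g (T u)) → T = 0)
  (hirr : ∀ i, 2 ≤ finrank K (E i) → Irr (r i))
  (hnil : ∀ i, 2 ≤ finrank K (E i) → ∃ X ∈ h0 r χ,
    ∃ (u : E i) (φ : Dual K (E i)), u ≠ 0 ∧ φ ≠ 0 ∧ φ u = 0 ∧ X i = φ.smulRight u)

include halt hnd hωρ hst hor htw hirr hnil in
/-- Families without trace supported in one component and its dual. -/
theorem fam_hh {i : I} (hi : 2 ≤ finrank K (E i)) {X : ∀ j, Module.End K (E j)}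
    (hXj : ∀ j, j ≠ i → j ≠ st i → X j = 0)
    (hX : ∀ (u : E i) (v : E (st i)), ω (Pi.single i (X i u)) (Pi.single (st i) v) +
      ω (Pi.single i u) (Pi.single (st i) (X (st i) v)) = 0)
    (htr : LinearMap.trace K (E i) (X i) = 0) : X ∈ hh r χ := by
  have hT := types_h0 ω halt hnd hωρ st hst hor htw hirr hnil
  have h1 : X i ∈ T.TS (sdd (K := K) E st) (fun i => om ω st i) i := by
    refine span_types hT (X i) htr fun hs u v => ?_
    by_cases h : st i = i
    · rw [om_self ω st h]
      have h2 := hX u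
      rw [h] at h2
      exact h2 v
    · rw [om_two ω st h (hs.resolve_left h)]
      have h1 := (exists_area (hs.resolve_left h)).choose_spec.2.2.2.1 (X i) u v
      rw [h1, htr, zero_mul]
  have key : ∀ n ∈ T.TS (K := K) (sdd (K := K) E st) (fun i => om ω st i) i,
      ∃ Z ∈ hh r χ, Z i = n ∧ ∀ j, j ≠ i → j ≠ st i → Z j = 0 := by
    intro n hn
    induction hn using Submodule.span_induction with
    | mem n hn =>
      obtain ⟨w, ψ, hw, rfl⟩ := hn
      exact exists_elem ω halt hnd hωρ st hst hor htw hirr hnil i hi w ψ hw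
    | zero => exact ⟨0, Submodule.zero_mem _, rfl, fun _ _ _ => rfl⟩
    | add a b _ _ ha hb =>
      obtain ⟨Z, hZ, hZi, hZj⟩ := ha
      obtain ⟨Z', hZ', hZi', hZj'⟩ := hb
      refine ⟨Z + Z', Submodule.add_mem _ hZ hZ', by rw [Pi.add_apply, hZi, hZi'],
        fun j h1 h2 => ?_⟩
      rw [Pi.add_apply, hZj j h1 h2, hZj' j h1 h2, add_zero]
    | smul c a _ ha =>
      obtain ⟨Z, hZ, hZi, hZj⟩ := ha
      refine ⟨c • Z, Submodule.smul_mem _ _ hZ, by rw [Pi.smul_apply, hZi], fun j h1 h2 => ?_⟩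
      rw [Pi.smul_apply, hZj j h1 h2, smul_zero]
  obtain ⟨Z, hZ, hZi, hZj⟩ := key _ h1
  have h2 : X = Z := Pool.Agent.W522.S.fam_eq ω hnd st hst hor hZi.symm hXj hZj hX
    (fun u v => by
      have h3 := lieT_sp (piRep r) χ ω hωρ hZ (Pi.single i u) (Pi.single (st i) v)
      rw [blk_single, blk_single] at h3
      exact h3) halt
  rw [h2]
  exact hZ

include halt hnd hωρ hst hor htw hirr hnil in
/-- Families without trace that are skew for the form. -/
theorem all_hh {X : ∀ j, Module.End K (E j)}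
    (hX : ∀ i (u : E i) (v : E (st i)), ω (Pi.single i (X i u)) (Pi.single (st i) v) +
      ω (Pi.single i u) (Pi.single (st i) (X (st i) v)) = 0)
    (htr : ∀ i, LinearMap.trace K (E i) (X i) = 0) : X ∈ hh r χ := by
  classical
  let Y : I → ∀ j, Module.End K (E j) := fun i j => if j = i ∨ j = st i then X j else 0
  have hY1 : ∀ i j, j = i ∨ j = st i → Y i j = X j := fun i j h => if_pos h
  have hY0 : ∀ i j, j ≠ i → j ≠ st i → Y i j = 0 := fun i j h h' => if_neg (by tauto)
  have hY : ∀ i, Y i ∈ hh r χ := by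
    intro i
    rcases Nat.lt_or_ge (finrank K (E i)) 2 with h2 | h2
    · have h3 : Y i = 0 := by
        funext j
        by_cases h : j = i ∨ j = st i
        · rw [hY1 i j h]
          refine trace_one_dim ?_ _ (htr j)
          rcases h with rfl | rfl
          · omega
          · rw [finrank_st ω hnd st hst hor]
            omega
        · exact hY0 i j (fun h' => h (Or.inl h')) (fun h' => h (Or.inr h'))
      rw [h3]
      exact Submodule.zero_mem _
    · refine fam_hh ω halt hnd hωρ st hst hor htw hirr hnil h2 (hY0 i) (fun u v => ?_) ?_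
      · rw [hY1 i i (Or.inl rfl), hY1 i (st i) (Or.inr rfl)]
        exact hX i u v
      · rw [hY1 i i (Or.inl rfl)]
        exact htr i
  let c : I → K := fun i => if st i = i then 1 else 2⁻¹
  have hsum : X = ∑ i, c i • Y i := by
    funext j
    rw [Finset.sum_apply]
    simp only [Pi.smul_apply]
    by_cases hj : st j = j
    · rw [Finset.sum_eq_single j]
      · rw [hY1 j j (Or.inl rfl)]
        simp only [c, if_pos hj, one_smul]
      · intro i _ hi
        rw [hY0 i j (Ne.symm hi) (fun h => hi (by rw [← hst i, ← h, hj])), smul_zero]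
      · intro h
        exact absurd (Finset.mem_univ _) h
    · rw [← Finset.add_sum_erase _ _ (Finset.mem_univ j),
        ← Finset.add_sum_erase _ _ (Finset.mem_erase.2 ⟨hj, Finset.mem_univ (st j)⟩),
        Finset.sum_eq_zero (s := (Finset.univ.erase j).erase (st j)) (fun i hi => by
          rw [Finset.mem_erase, Finset.mem_erase] at hi
          rw [hY0 i j (Ne.symm hi.2.1) (fun h => hi.1 (by rw [h, hst])), smul_zero]), add_zero,
        hY1 j j (Or.inl rfl), hY1 (st j) j (Or.inr (hst j).symm)]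
      have h1 : c j = 2⁻¹ := if_neg hj
      have h2 : c (st j) = 2⁻¹ := if_neg (by rw [hst]; exact fun h => hj h.symm)
      rw [h1, h2, ← add_smul]
      have h3 : (2⁻¹ + 2⁻¹ : K) = 1 := by norm_num
      rw [h3, one_smul]
  rw [hsum]
  exact Submodule.sum_mem _ fun i _ => Submodule.smul_mem _ _ (hY i)

/-- From the semi-invariant forms to the Tate forms. -/
theorem f0_h0 {X : ∀ j, Module.End K (E j)} (hX : X ∈ Pool.Agent.W522.S.f0 r) : X ∈ h0 r χ := by
  refine ⟨?_, fun i => Pool.Agent.W522.S.f0_tr _ hX i⟩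
  rw [mem_hh]
  intro m φ hφ v
  obtain ⟨Δ, hΔ, h⟩ := hφ
  have h1 := Pool.Agent.W522.S.scal_of_lie0 ((Pool.Agent.W522.S.mem_f0 r X).1 hX)
    (φ := φ) ⟨Δ, hΔ, fun g => χ g ^ m, h⟩ v
  rw [zero_mul] at h1
  exact h1

end

end Pool.Agent.W522.H
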