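import Mathlib
import Pool.Agent.W522.H.H1

/-!
# The families of the representatives of the strongly irreducible subspaces
-/

set_option linter.unusedSectionVars false

namespace Pool.Agent.W522.H

open Module Pool.Agent.H204R3.SP Pool.Agent.H204R3.GP Pool.Agent.W522.U
open Pool.Agent.W522.T (HasReflection HasSymplecticReflection AltDu TwistFree2 h0 irr_res
  alt_of_refl)
open Pool.Agent.W522.S (HasUnipotent RefOp UniOp SprOp trR trR_symm refOp_tr uniOp_tr sprOp_tr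
  nil_of_elem nil_of_spr alt_of_elem)

noncomputable section

variable {K : Type*} [Field K] [CharZero K] {X : Type*} [AddCommGroup X] [Module K X]
  [FiniteDimensional K X]
  {Γ : Type*} [Group Γ] (R : Representation K Γ X) (χ : Γ →* K)

/-- For every strongly irreducible subspace of dimension at least two there is a special element. -/
def Elems : Prop :=
  ∀ U, SI R U → 2 ≤ finrank K U → HasReflection R U ∨ HasUnipotent R U ∨
    (HasSymplecticReflection R U ∧ AltDu R χ U)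

variable {R χ} [IsAlgClosed K]

theorem ref_res {U : Submodule K X} {Δ : Subgroup Γ} (hΔ : Δ.FiniteIndex)
    (hUΔ : ∀ g ∈ Δ, ∀ u ∈ U, R g u ∈ U) (h : HasReflection R U) :
    ∃ g, RefOp (resR R Δ U hUΔ g) := by
  obtain ⟨g, hg⟩ := refOp_tr Δ hΔ hUΔ (LinearEquiv.refl K U) h
  exact ⟨g, hg.conj (LinearEquiv.refl K U).symm fun v => (trR_symm _ _ _ _).symm⟩

theorem uni_res {U : Submodule K X} {Δ : Subgroup Γ} (hΔ : Δ.FiniteIndex)
    (hUΔ : ∀ g ∈ Δ, ∀ u ∈ U, R g u ∈ U) (h : HasUnipotent R U) :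
    ∃ g, UniOp (resR R Δ U hUΔ g) := by
  obtain ⟨g, hg⟩ := uniOp_tr Δ hΔ hUΔ (LinearEquiv.refl K U) h
  exact ⟨g, hg.conj (LinearEquiv.refl K U).symm fun v => (trR_symm _ _ _ _).symm⟩

theorem spr_res {U : Submodule K X} {Δ : Subgroup Γ} (hΔ : Δ.FiniteIndex)
    (hUΔ : ∀ g ∈ Δ, ∀ u ∈ U, R g u ∈ U) (h : HasSymplecticReflection R U) :
    ∃ g, SprOp (resR R Δ U hUΔ g) := by
  obtain ⟨g, hg⟩ := sprOp_tr Δ hΔ hUΔ (LinearEquiv.refl K U) h
  exact ⟨g, hg.conj (LinearEquiv.refl K U).symm fun v => (trR_symm _ _ _ _).symm⟩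

theorem alt_uni {U : Submodule K X} (hU : SI R U) (h2 : 2 ≤ finrank K U)
    (h : HasUnipotent R U) {D : Subgroup Γ} (hD : D.FiniteIndex) (B : X →ₗ[K] X →ₗ[K] K)
    (hB : ∀ g ∈ D, ∀ u ∈ U, ∀ v ∈ U, B (R g u) (R g v) = χ g * B u v) : ∀ u ∈ U, B u u = 0 := by
  obtain ⟨D1, hD1, h1⟩ := hU.2.1
  have hΔ : (D1 ⊓ D).FiniteIndex := inferInstance
  have hUΔ : ∀ g ∈ D1 ⊓ D, ∀ u ∈ U, R g u ∈ U := fun g hg => h1 g hg.1
  intro u hu
  exact alt_of_elem (irr_res hU hΔ hUΔ) h2 (Or.inr (uni_res hΔ hUΔ h))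
    (B.compl₁₂ U.subtype U.subtype) (fun g => χ g.1)
    (fun g u v => hB g.1 g.2.2 u u.2 v v.2) ⟨u, hu⟩

variable (ω : X →ₗ[K] X →ₗ[K] K) (hnd : ∀ u, (∀ v, ω u v = 0) → u = 0)
  (hωR : ∀ g u v, ω (R g u) (R g v) = χ g * ω u v)
  (hR1 : Elems R χ) (hR2 : LinesNotSelfDual R χ) (hH : TwistFree2 R χ)

include hR1 hR2 hH in
theorem family {s : ℕ} (W : Fin s → Submodule K X) (hW : ∀ i, SI R (W i))
    (hWW : ∀ i j, Tw R (fun _ => 1) (W i) (W j) → i = j)
    (st : Fin s → Fin s) (hst : ∀ i, st (st i) = i) (hDu : ∀ i, Du R χ (W i) (W (st i)))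
    (hDu' : ∀ i j, Du R χ (W i) (W j) → j = st i) :
    ∃ (Δ : Subgroup Γ) (_ : Δ.FiniteIndex) (hWΔ : ∀ i, ∀ g ∈ Δ, ∀ u ∈ W i, R g u ∈ W i)
      (B : Fin s → X →ₗ[K] X →ₗ[K] K),
      (∀ i, ∀ u ∈ W i, (∀ v ∈ W (st i), B i u v = 0) → u = 0) ∧
      (∀ i, ∀ v ∈ W (st i), (∀ u ∈ W i, B i u v = 0) → v = 0) ∧
      (∀ i, ∀ g ∈ Δ, ∀ u ∈ W i, ∀ v ∈ W (st i), B i (R g u) (R g v) = χ g * B i u v) ∧
      ∀ D : ∀ i, Module.End K (W i),
        (∀ i (u : W i) (v : W (st i)), B i (D i u) v + B i u (D (st i) v) = 0) →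
        (∀ i, LinearMap.trace K (W i) (D i) = 0) →
        D ∈ hh (fun i => resR R Δ (W i) (hWΔ i)) (χ.comp Δ.subtype) := by
  classical
  choose D hDfi hDs using fun i => (hW i).2.1
  have hpos : ∀ i, 0 < finrank K (W i) := by
    intro i
    rw [Nat.pos_iff_ne_zero, ne_eq, Submodule.finrank_eq_zero]
    exact (hW i).1
  have hDuA : ∀ i, ∃ D' : Subgroup Γ, D'.FiniteIndex ∧ ∃ B : X →ₗ[K] X →ₗ[K] K,
      (∃ u ∈ W i, ∃ v ∈ W (st i), B u v ≠ 0) ∧
      (∀ g ∈ D', ∀ u ∈ W i, ∀ v ∈ W (st i), B (R g u) (R g v) = χ g * B u v) ∧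
      (st i = i → ∀ u ∈ W i, B u u = 0) := by
    intro i
    obtain ⟨D', hD', B, hB0, hB⟩ := hDu i
    by_cases hi : st i = i
    · rcases (show finrank K (W i) = 1 ∨ 2 ≤ finrank K (W i) by have := hpos i; omega)
        with h1 | h1
      · rw [hi] at hB hB0
        exact absurd ⟨D', hD', B, hB0, hB⟩ (hR2 _ (hW i) h1)
      · rcases hR1 _ (hW i) h1 with hr | hr | ⟨-, D2, hD2, B2, hB20, hB2a, hB2⟩
        · refine ⟨D', hD', B, hB0, hB, fun _ => ?_⟩
          rw [hi] at hB hB0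
          exact alt_of_refl (hW i) h1 hr hD' B hB
        · refine ⟨D', hD', B, hB0, hB, fun _ => ?_⟩
          rw [hi] at hB hB0
          exact alt_uni (hW i) h1 hr hD' B hB
        · rw [hi]
          exact ⟨D2, hD2, B2, hB20, hB2, fun _ => hB2a⟩
    · exact ⟨D', hD', B, hB0, hB, fun h => absurd h hi⟩
  choose D' hD' B hB0 hB hBA using hDuA
  let Δ : Subgroup Γ := ⨅ i, D i ⊓ D' i
  have hΔ : Δ.FiniteIndex := Subgroup.finiteIndex_iInf (fun i => inferInstance)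
  have hm : ∀ g ∈ Δ, ∀ i, g ∈ D i ∧ g ∈ D' i := fun g hg i => Subgroup.mem_iInf.1 hg i
  have hWΔ : ∀ i, ∀ g ∈ Δ, ∀ u ∈ W i, R g u ∈ W i := fun i g hg u hu => hDs i g (hm g hg i).1 u hu
  have hBalt : ∀ i, st i = i → ∀ u ∈ W i, B i u u = 0 := hBA
  have hBl : ∀ i j, j = st i → ∀ u ∈ W i, (∀ v ∈ W j, B i u v = 0) → u = 0 := by
    rintro i _ rfl
    exact du_left (hW i) (hW _).2.1 (hD' i) (hB0 i) (hB i)
  have hBr : ∀ i j, j = st i → ∀ v ∈ W j, (∀ u ∈ W i, B i u v = 0) → v = 0 := by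
    rintro i _ rfl
    exact du_right (hW i).2.1 (hW _) (hD' i) (hB0 i) (hB i)
  have hBs : ∀ i j, j = st i → ∀ g ∈ Δ, ∀ u ∈ W i, ∀ v ∈ W j,
      B i (R g u) (R g v) = χ g * B i u v := by
    rintro i _ rfl g hg
    exact hB i g (hm g hg i).2
  let r : ∀ i, Representation K Δ (W i) := fun i => resR R Δ (W i) (hWΔ i)
  have hr : ∀ (i : Fin s) (g : Δ) (u : W i), ((r i g u : W i) : X) = R g.1 u := fun _ _ _ => rfl
  -- the conditions
  have hsim : ∀ (g : Δ) u v, pf W st B (piRep r g u) (piRep r g v) =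
      (χ.comp Δ.subtype) g * pf W st B u v := by
    intro g u v
    rw [pf_apply, pf_apply, Finset.mul_sum]
    refine Finset.sum_congr rfl fun i _ => ?_
    rw [Finset.mul_sum]
    refine Finset.sum_congr rfl fun j _ => ?_
    rw [piRep_apply, piRep_apply, hr, hr]
    change _ = χ g.1 * _
    unfold cf
    by_cases h : j = st i
    · rw [if_pos h]
      rcases lt_trichotomy i j with h1 | h1 | h1
      · rw [if_pos h1]
        exact hBs i j h g.1 g.2 _ (u i).2 _ (v j).2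
      · rw [if_neg (not_lt.2 h1.ge), if_neg (not_lt.2 h1.le)]
        exact hBs i j h g.1 g.2 _ (u i).2 _ (v j).2
      · rw [if_neg (not_lt.2 h1.le), if_pos h1, LinearMap.neg_apply, LinearMap.neg_apply,
          LinearMap.neg_apply, LinearMap.neg_apply, LinearMap.flip_apply, LinearMap.flip_apply,
          hBs j i (by rw [h, hst]) g.1 g.2 _ (v j).2 _ (u i).2, mul_neg]
    · rw [if_neg h, LinearMap.zero_apply, LinearMap.zero_apply, LinearMap.zero_apply,
        LinearMap.zero_apply, mul_zero]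
  have hor : ∀ i j, j ≠ st i → ∀ (u : W i) (v : W j),
      pf W st B (Pi.single i u) (Pi.single j v) = 0 := by
    intro i j hij u v
    rw [pf_single]
    unfold cf
    rw [if_neg hij, LinearMap.zero_apply, LinearMap.zero_apply]
  have htw : ∀ i j, i ≠ j → 2 ≤ finrank K (W i) → 2 ≤ finrank K (W j) →
      (j = st i → 2 < finrank K (W i)) →
      ∀ (T : W i →ₗ[K] W j) (ψ : Δ → K), (∀ g u, T (r i g u) = ψ g • r j g (T u)) → T = 0 := by
    intro i j hij hi hj h2f T ψ hT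
    by_contra hT0
    obtain ⟨p, hp⟩ := exists_pr (W i)
    let ψ' : Γ → K := fun g => if h : g ∈ Δ then ψ ⟨g, h⟩ else 1
    have htw : Tw R ψ' (W i) (W j) := by
      refine ⟨Δ, hΔ, (W j).subtype.comp (T.comp p), fun u _ => SetLike.coe_mem _, ?_, ?_⟩
      · by_contra hcon
        push Not at hcon
        apply hT0
        ext u
        have h1 := hcon u u.2
        rw [LinearMap.comp_apply, LinearMap.comp_apply, hp] at h1
        exact h1
      · intro g hg u hu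
        have h1 := hT ⟨g, hg⟩ ⟨u, hu⟩
        have h2 : p (R g u) = r i ⟨g, hg⟩ ⟨u, hu⟩ := hp (r i ⟨g, hg⟩ ⟨u, hu⟩)
        have h3 : p u = ⟨u, hu⟩ := hp ⟨u, hu⟩
        have h4 : ψ' g = ψ ⟨g, hg⟩ := dif_pos hg
        rw [LinearMap.comp_apply, LinearMap.comp_apply, LinearMap.comp_apply,
          LinearMap.comp_apply, h2, h3, h1, h4]
        rfl
    have h1 : Tw R (fun _ => 1) (W i) (W j) ∨ (finrank K (W i) = 2 ∧ Du R χ (W i) (W j)) := by
      by_cases h2 : Du R χ (W i) (W i)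
      · by_cases h3 : Du R χ (W j) (W j)
        · exact Or.inl (sp_twist (hW i) (hW j) h2 h3 htw)
        · rcases hH _ _ (hW j) (hW i) hj h3 _ (htw.symm (hW i) (hW j)) with h4 | ⟨h4, h5⟩
          · exact Or.inl (h4.symm1 (hW j) (hW i))
          · refine Or.inr ⟨?_, h5.symm⟩
            have h6 := hDu' _ _ h5.symm
            obtain ⟨Δ5, hΔ5, B5, hB50, hB5⟩ := h5
            rw [← h4]
            exact (du_bij (hW j) (hW i) hΔ5 B5 hB50 hB5).1.symm
      · exact hH _ _ (hW i) (hW j) hi h2 _ htw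
    rcases h1 with h1 | ⟨h1, h2⟩
    · exact hij (hWW _ _ h1)
    · have h3 := h2f (hDu' _ _ h2)
      omega
  have hirr : ∀ i, Irr (r i) := fun i => irr_res (hW i) hΔ (hWΔ i)
  have hnil : ∀ i, 2 ≤ finrank K (W i) → ∃ Z ∈ h0 r (χ.comp Δ.subtype),
      ∃ (u : W i) (φ : Dual K (W i)), u ≠ 0 ∧ φ ≠ 0 ∧ φ u = 0 ∧ Z i = φ.smulRight u := by
    intro i hi
    have h1 : ∃ Z ∈ Pool.Agent.W522.S.f0 r, ∃ (u : W i) (φ : Dual K (W i)), u ≠ 0 ∧ φ ≠ 0 ∧
        φ u = 0 ∧ Z i = φ.smulRight u := by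
      rcases hR1 _ (hW i) hi with hr | hr | ⟨hr, hA⟩
      · exact nil_of_elem (hirr i) hi (Or.inl (ref_res hΔ (hWΔ i) hr))
      · exact nil_of_elem (hirr i) hi (Or.inr (uni_res hΔ (hWΔ i) hr))
      · have hsi : st i = i := by
          obtain ⟨D2, hD2, B2, hB20, -, hB2⟩ := hA
          exact (hDu' _ _ ⟨D2, hD2, B2, hB20, hB2⟩).symm
        exact nil_of_spr (hirr i) hi (spr_res hΔ (hWΔ i) hr)
          ((B i).compl₁₂ (W i).subtype (W i).subtype)
          (fun u hu => Subtype.ext (hBl i i hsi.symm u u.2 fun v hv => hu ⟨v, hv⟩))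
          (fun u => hBalt i hsi u u.2) (fun g => χ g.1) (fun g => χne g.1)
          (fun g u v => hBs i i hsi.symm g.1 g.2 u u.2 v v.2)
    obtain ⟨Z, hZ, h2⟩ := h1
    exact ⟨Z, f0_h0 hZ, h2⟩
  refine ⟨Δ, hΔ, hWΔ, B, fun i => hBl i _ rfl, fun i => hBr i _ rfl, fun i => hBs i _ rfl,
    fun D hD htr => ?_⟩
  refine all_hh (pf W st B) (pf_alt W st B hst hBalt) (pf_nondeg W st B hst hBl hBr) hsim st hst
    hor htw (fun i _ => hirr i) hnil (fun i u v => ?_) htr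
  rw [pf_single, pf_single]
  unfold cf
  rw [if_pos rfl]
  rcases lt_trichotomy i (st i) with h1 | h1 | h1
  · rw [if_pos h1]
    exact hD i u v
  · rw [if_neg (not_lt.2 h1.ge), if_neg (not_lt.2 h1.le)]
    exact hD i u v
  · rw [if_neg (not_lt.2 h1.le), if_pos h1, LinearMap.neg_apply, LinearMap.neg_apply,
      LinearMap.neg_apply, LinearMap.neg_apply, LinearMap.flip_apply, LinearMap.flip_apply]
    have h2 : ∀ (j : Fin s) (hj : j = st (st i)) (u : W j), B (st i) (D (st i) v) u +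
        B (st i) v (D j u) = 0 := by
      rintro _ rfl u
      exact hD (st i) v u
    have h3 := h2 i (hst i).symm u
    linear_combination -h3

end

end Pool.Agent.W522.H
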