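import Mathlib
import Pool.Agent.W522.H.H2
import Pool.Agent.W516.Norm

/-!
# Infinitesimal isometries that commute with the almost equivariant endomorphisms
-/

set_option linter.unusedSectionVars false

namespace Pool.Agent.W522.H

open Module Pool.Agent.H204R3.SP Pool.Agent.H204R3.GP Pool.Agent.W522.U
open Pool.Agent.W516.FT (AlmostEquivariant)
open Pool.Agent.W522.T (TwistFree2)

noncomputable section

theorem trace_dual {K V V' : Type*} [Field K] [AddCommGroup V] [Module K V] [FiniteDimensional K V]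
    [AddCommGroup V'] [Module K V'] [FiniteDimensional K V'] (β : V →ₗ[K] V' →ₗ[K] K)
    (hl : ∀ u, (∀ v, β u v = 0) → u = 0) (hr : ∀ v, (∀ u, β u v = 0) → v = 0)
    (A : Module.End K V) (A' : Module.End K V') (h : ∀ u v, β (A u) v + β u (A' v) = 0) :
    LinearMap.trace K V' A' = -LinearMap.trace K V A := by
  have h1 : Function.Injective β := by
    rw [injective_iff_map_eq_zero]
    exact fun u hu => hl u fun v => by rw [hu, LinearMap.zero_apply]
  have h2 : Function.Injective β.flip := by
    rw [injective_iff_map_eq_zero]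
    exact fun u hu => hr u fun v => by
      have h3 := congrArg (fun f : V →ₗ[K] K => f v) hu
      exact h3
  have h3 : finrank K V = finrank K V' := by
    apply le_antisymm
    · have h4 := LinearMap.finrank_le_finrank_of_injective h1
      rwa [Subspace.dual_finrank_eq] at h4
    · have h4 := LinearMap.finrank_le_finrank_of_injective h2
      rwa [Subspace.dual_finrank_eq] at h4
  let e : V' ≃ₗ[K] Dual K V := LinearEquiv.ofInjectiveOfFinrankEq β.flip h2 (by
    rw [Subspace.dual_finrank_eq, h3])
  have he : ∀ v u, e v u = β u v := fun _ _ => rfl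
  have h4 : LinearMap.trace K V' A' = LinearMap.trace K (Dual K V) (e.conj A') :=
    (LinearMap.trace_conj' A' e).symm
  have h5 : e.conj A' = -(Module.Dual.transpose (R := K) A) := by
    refine LinearMap.ext fun f => LinearMap.ext fun u => ?_
    obtain ⟨v, rfl⟩ := e.surjective f
    rw [LinearEquiv.conj_apply, LinearMap.comp_apply, LinearMap.comp_apply,
      LinearEquiv.coe_coe, LinearEquiv.coe_coe, e.symm_apply_apply, he, LinearMap.neg_apply,
      LinearMap.neg_apply, Module.Dual.transpose_apply, LinearMap.comp_apply, he]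
    linear_combination h u v
  rw [h4, h5]
  exact ((LinearMap.trace K (Dual K V)).map_neg (Module.Dual.transpose (R := K) A)).trans
    (congrArg Neg.neg (LinearMap.trace_transpose' A))

variable {K : Type*} [Field K] [CharZero K] {X : Type*} [AddCommGroup X] [Module K X]
  [FiniteDimensional K X]
  {Γ : Type*} [Group Γ] {R : Representation K Γ X} {χ : Γ →* K}

/-- Commuting with the almost equivariant endomorphisms gives skewness for all pairings. -/
theorem skew_all (ω : X →ₗ[K] X →ₗ[K] K) (hnd : ∀ u, (∀ v, ω u v = 0) → u = 0)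
    (hωR : ∀ g u v, ω (R g u) (R g v) = χ g * ω u v) (Z : Module.End K X)
    (hZs : ∀ u v, ω (Z u) v + ω u (Z v) = 0)
    (hZc : ∀ Q, AlmostEquivariant R Q → ∀ v, Z (Q v) = Q (Z v))
    (b : X →ₗ[K] X →ₗ[K] K) (Δ : Subgroup Γ) (hΔ : Δ.FiniteIndex)
    (hb : ∀ g ∈ Δ, ∀ u v, b (R g u) (R g v) = χ g * b u v) (u v : X) :
    b (Z u) v + b u (Z v) = 0 := by
  have hinj : Function.Injective ω := by
    rw [injective_iff_map_eq_zero]
    exact fun u hu => hnd u fun v => by rw [hu, LinearMap.zero_apply]
  let e : X ≃ₗ[K] Dual K X := LinearEquiv.ofInjectiveOfFinrankEq ω hinj (by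
    rw [Subspace.dual_finrank_eq])
  have he : ∀ u v, e u v = ω u v := fun _ _ => rfl
  let S : Module.End K X := e.symm.toLinearMap.comp b
  have hS : ∀ u v, ω (S u) v = b u v := by
    intro u v
    rw [← he]
    change e (e.symm (b u)) v = _
    rw [e.apply_symm_apply]
  have hSe : AlmostEquivariant R S := by
    refine ⟨Δ, hΔ, fun g hg v => ?_⟩
    rw [← sub_eq_zero]
    apply hnd
    intro w
    rw [map_sub, LinearMap.sub_apply, ← Rinv' (R := R) g w, hωR, hS, hS, hb g hg, sub_self]
  have h1 := hZc S hSe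
  rw [← hS, ← hS, ← h1]
  exact hZs _ _

variable [IsAlgClosed K]
  (ω : X →ₗ[K] X →ₗ[K] K) (hnd : ∀ u, (∀ v, ω u v = 0) → u = 0)
  (hωR : ∀ g u v, ω (R g u) (R g v) = χ g * ω u v)
  (hR1 : Elems R χ) (hR2 : LinesNotSelfDual R χ) (hH : TwistFree2 R χ)

include hnd hωR hR1 hR2 hH in
/-- An infinitesimal isometry that commutes with the almost equivariant endomorphisms is the sum of
an element of the Lie algebra that kills all Tate forms and of a central almost equivariant
endomorphism. -/
theorem decompose (hss : HasProj R) (Z : Module.End K X)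
    (hZs : ∀ u v, ω (Z u) v + ω u (Z v) = 0)
    (hZc : ∀ Q, AlmostEquivariant R Q → ∀ v, Z (Q v) = Q (Z v)) :
    ∃ C : Module.End K X, AlmostEquivariant R C ∧
      (∀ Q, AlmostEquivariant R Q → ∀ v, C (Q v) = Q (C v)) ∧ Z - C ∈ lieT R χ := by
  classical
  obtain ⟨s, W, hW, hWW, hall⟩ := exists_reps hss
  obtain ⟨st, hst, hDu, hDu'⟩ := exists_st hss ω hnd hωR W hW hWW hall
  obtain ⟨Δ, hΔ, hWΔ, B, hBl, hBr, hBs, hfam⟩ := family hR1 hR2 hH W hW hWW st hst hDu hDu'
  obtain ⟨n, f, T, hfT⟩ := Submodule.mem_span_set'.1 (decomp hss W hW hall)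
  choose i p ι D hD hp hι hT using fun l => (T l).2
  have hx : ∀ x : X, ∑ l, f l • ι l (p l x) = x := by
    intro x
    have h2 := congrArg (fun F : Module.End K X => F x) hfT
    simp only [LinearMap.sum_apply, LinearMap.smul_apply, Module.End.one_apply] at h2
    conv_rhs => rw [← h2]
    refine Finset.sum_congr rfl fun l _ => ?_
    rw [hT]
    rfl
  have hDD : (⨅ l, D l).FiniteIndex := Subgroup.finiteIndex_iInf hD
  -- projections onto the representatives
  choose P hP1 hP2 hP3 using fun j => hss Δ hΔ (W j) (hWΔ j)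
  have hPa : ∀ j, AlmostEquivariant R (P j) := fun j => ⟨Δ, hΔ, hP3 j⟩
  have hZW : ∀ j, ∀ u ∈ W j, Z u ∈ W j := by
    intro j u hu
    rw [← hP2 j u hu, hZc _ (hPa j)]
    exact hP1 j _
  let z : ∀ j, Module.End K (W j) := fun j => Z.restrict (hZW j)
  have hz : ∀ j (u : W j), ((z j u : W j) : X) = Z u := fun _ _ => rfl
  have hpos : ∀ j, (finrank K (W j) : K) ≠ 0 := by
    intro j
    rw [Nat.cast_ne_zero, ne_eq, Submodule.finrank_eq_zero]
    exact (hW j).1
  let c : Fin s → K := fun j => LinearMap.trace K (W j) (z j) / finrank K (W j)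
  let d : ∀ j, Module.End K (W j) := fun j => z j - c j • 1
  have hd : ∀ j (u : W j), d j u = z j u - c j • u := fun _ _ => rfl
  -- the maps commute with `Z`
  have hZι : ∀ l (w : W (i l)), Z (ι l w) = ι l (z (i l) w) := by
    intro l w
    let E : Module.End K X := (ι l).comp ((P (i l)).codRestrict (W (i l)) (hP1 (i l)))
    have hE : ∀ x, E x = ι l ⟨P (i l) x, hP1 (i l) x⟩ := fun _ => rfl
    have hEa : AlmostEquivariant R E := by
      refine ⟨Δ ⊓ D l, inferInstance, fun g hg x => ?_⟩
      rw [hE, hE]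
      exact hι l g hg.2 _ _ (hP3 (i l) g hg.1 x)
    have h1 := hZc E hEa w
    have h2 : ∀ u : W (i l), E u = ι l u := by
      intro u
      rw [hE]
      congr 1
      exact Subtype.ext (hP2 (i l) u u.2)
    rw [h2] at h1
    rw [h1]
    exact h2 (z (i l) w)
  have hZp : ∀ l x, p l (Z x) = z (i l) (p l x) := by
    intro l x
    have hEa : AlmostEquivariant R ((W (i l)).subtype.comp (p l)) :=
      ⟨D l, hD l, fun g hg x => hp l g hg x⟩
    exact Subtype.ext (hZc _ hEa x).symm
  -- orthogonality of the types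
  have horth : ∀ (Q : Module.End K X), AlmostEquivariant R Q → ∀ l l', i l ≠ i l' →
      ∀ w : W (i l), p l' (Q (ι l w)) = 0 := by
    intro Q hQ l l' hll w
    obtain ⟨ΔQ, hΔQ, hQ⟩ := hQ
    by_contra h0
    apply hll
    apply hWW
    obtain ⟨pr, hpr⟩ := exists_pr (W (i l))
    refine ⟨(Δ ⊓ ΔQ) ⊓ (D l ⊓ D l'), inferInstance,
      (W (i l')).subtype.comp ((p l').comp (Q.comp ((ι l).comp pr))), fun u _ => SetLike.coe_mem _,
      ⟨w, w.2, ?_⟩, fun g hg u hu => ?_⟩
    · intro h1
      apply h0
      apply Subtype.ext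
      have h2 : ((p l' (Q (ι l (pr w))) : W (i l')) : X) = 0 := h1
      rw [hpr] at h2
      exact h2
    · change ((p l' (Q (ι l (pr (R g u)))) : W (i l')) : X) =
        (1 : K) • R g ((p l' (Q (ι l (pr u))) : W (i l')) : X)
      have h1 : pr u = ⟨u, hu⟩ := hpr ⟨u, hu⟩
      have h2 : pr (R g u) = ⟨R g u, hWΔ _ g hg.1.1 u hu⟩ := hpr ⟨R g u, hWΔ _ g hg.1.1 u hu⟩
      rw [one_smul, h1, h2, hι l g hg.2.1 ⟨u, hu⟩ ⟨R g u, _⟩ rfl, hQ g hg.1.2, hp l' g hg.2.2]
  -- the central endomorphism
  let C : Module.End K X := ∑ l, (f l * c (i l)) • (ι l).comp (p l)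
  have hC : ∀ x, C x = ∑ l, (f l * c (i l)) • ι l (p l x) := by
    intro x
    change (∑ l, (f l * c (i l)) • (ι l).comp (p l)) x = _
    rw [LinearMap.sum_apply]
    rfl
  have hCQ : ∀ (Q : Module.End K X), AlmostEquivariant R Q → ∀ l (w : W (i l)),
      C (Q (ι l w)) = c (i l) • Q (ι l w) := by
    intro Q hQ l w
    rw [hC]
    conv_rhs => rw [← hx (Q (ι l w))]
    rw [Finset.smul_sum]
    refine Finset.sum_congr rfl fun l' _ => ?_
    by_cases h : i l = i l'
    · have h' : c (i l) = c (i l') := congrArg c h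
      rw [h', smul_smul, mul_comm]
    · rw [horth Q hQ l l' h w, map_zero, smul_zero, smul_zero, smul_zero]
  have hone : AlmostEquivariant R (1 : Module.End K X) := ⟨⊤, inferInstance, fun _ _ _ => rfl⟩
  have hCι : ∀ l (w : W (i l)), C (ι l w) = c (i l) • ι l w := fun l w => hCQ 1 hone l w
  refine ⟨C, ⟨⨅ l, D l, hDD, fun g hg x => ?_⟩, fun Q hQ x => ?_, ?_⟩
  · rw [hC, hC, map_sum]
    refine Finset.sum_congr rfl fun l _ => ?_
    rw [map_smul]
    congr 1
    exact hι l g (Subgroup.mem_iInf.1 hg l) _ _ (hp l g (Subgroup.mem_iInf.1 hg l) x)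
  · conv_lhs => rw [← hx x]
    rw [map_sum, map_sum, hC, map_sum]
    refine Finset.sum_congr rfl fun l _ => ?_
    rw [map_smul, map_smul, hCQ Q hQ, map_smul, smul_smul]
  · -- the family
    have hBd : ∀ j (u : W j) (v : W (st j)), B j (z j u) v + B j u (z (st j) v) = 0 := by
      intro j u v
      let b : X →ₗ[K] X →ₗ[K] K := (B j).compl₁₂ (P j) (P (st j))
      have hb : ∀ x y, b x y = B j (P j x) (P (st j) y) := fun _ _ => rfl
      have h1 := skew_all ω hnd hωR Z hZs hZc b Δ hΔ (fun g hg x y => by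
        rw [hb, hb, hP3 j g hg, hP3 (st j) g hg]
        exact hBs j g hg _ (hP1 j x) _ (hP1 (st j) y)) u v
      rw [hb, hb, hP2 j _ (hZW j u u.2), hP2 j u u.2, hP2 _ _ (hZW _ v v.2), hP2 _ v v.2] at h1
      exact h1
    have htr : ∀ j, LinearMap.trace K (W (st j)) (z (st j)) = -LinearMap.trace K (W j) (z j) :=
      fun j => trace_dual ((B j).compl₁₂ (W j).subtype (W (st j)).subtype)
        (fun u hu => Subtype.ext (hBl j u u.2 fun v hv => hu ⟨v, hv⟩))
        (fun v hv => Subtype.ext (hBr j v v.2 fun u hu => hv ⟨u, hu⟩)) (z j) (z (st j))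
        (fun u v => hBd j u v)
    have hfr : ∀ j, finrank K (W (st j)) = finrank K (W j) := fun j =>
      (du_bij (hW j) (hW (st j)) hΔ (B j) (by
        obtain ⟨u, hu, hu0⟩ := Submodule.exists_mem_ne_zero_of_ne_bot (hW j).1
        by_contra hcon
        push Not at hcon
        exact hu0 (hBl j u hu fun v hv => hcon u hu v hv)) (hBs j)).1.symm
    have hcs : ∀ j, c (st j) = -c j := by
      intro j
      change LinearMap.trace K (W (st j)) (z (st j)) / finrank K (W (st j)) = _
      rw [htr, hfr, neg_div]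
    have hmem : d ∈ hh (fun j => resR R Δ (W j) (hWΔ j)) (χ.comp Δ.subtype) := by
      refine hfam d (fun j u v => ?_) (fun j => ?_)
      · have h1 := hBd j u v
        rw [hd, hd, Submodule.coe_sub, Submodule.coe_sub, Submodule.coe_smul, Submodule.coe_smul,
          map_sub, map_sub, map_smul, map_smul, LinearMap.sub_apply, LinearMap.smul_apply,
          smul_eq_mul, smul_eq_mul, hcs]
        linear_combination h1
      · change LinearMap.trace K (W j) (z j - c j • 1) = 0
        rw [map_sub, map_smul, LinearMap.trace_one, smul_eq_mul]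
        change _ - LinearMap.trace K (W j) (z j) / finrank K (W j) * _ = 0
        rw [div_mul_cancel₀ _ (hpos j), sub_self]
    rw [mem_hh] at hmem
    intro m φ hφ v
    obtain ⟨Δφ, hΔφ, hφ⟩ := hφ
    have hZC : ∀ x, (Z - C) x = ∑ l, f l • ι l (d (i l) (p l x)) := by
      intro x
      conv_lhs => rw [← hx x]
      rw [map_sum]
      refine Finset.sum_congr rfl fun l _ => ?_
      rw [map_smul, LinearMap.sub_apply, hZι, hCι, hd, map_sub, map_smul]
    let r := fun j => resR R Δ (W j) (hWΔ j)
    let φL : (Fin m × Fin 2 → Fin n) → MultilinearMap K (fun _ : Fin m × Fin 2 => ∀ j, W j) K :=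
      fun L => φ.compLinearMap (fun k => (ι (L k)).comp (LinearMap.proj (i (L k))))
    have hφL : ∀ L, IsTate (piRep r) (χ.comp Δ.subtype) m (φL L) := by
      intro L
      refine ⟨(Δφ ⊓ ⨅ l, D l).subgroupOf Δ, inferInstance, fun g hg w => ?_⟩
      rw [Subgroup.mem_subgroupOf] at hg
      change φ (fun k => ι (L k) (piRep r g (w k) (i (L k)))) = χ g.1 ^ m * φ (fun k => _)
      rw [← hφ g.1 hg.1]
      congr 1
      funext k
      exact hι (L k) g.1 (Subgroup.mem_iInf.1 hg.2 _) _ _ rfl
    let q : (Fin m × Fin 2 → Fin n) → (Fin m × Fin 2) → ∀ j, W j := fun L k =>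
      Pi.single (i (L k)) (p (L k) (v k))
    have key : ∀ k0, φ (Function.update v k0 ((Z - C) (v k0))) =
        ∑ L : Fin m × Fin 2 → Fin n, (∏ k, f (L k)) *
          φL L (Function.update (q L) k0 (blk d (q L k0))) := by
      intro k0
      have h1 : Function.update v k0 ((Z - C) (v k0)) = fun k => ∑ l, f l •
          (if k = k0 then ι l (d (i l) (p l (v k))) else ι l (p l (v k))) := by
        funext k
        by_cases hk : k = k0
        · subst hk
          rw [Function.update_self, hZC]
          refine Finset.sum_congr rfl fun l _ => ?_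
          rw [if_pos rfl]
        · rw [Function.update_of_ne hk]
          conv_lhs => rw [← hx (v k)]
          refine Finset.sum_congr rfl fun l _ => ?_
          rw [if_neg hk]
      rw [h1, MultilinearMap.map_sum]
      refine Finset.sum_congr rfl fun L _ => ?_
      rw [MultilinearMap.map_smul_univ, smul_eq_mul]
      congr 1
      change _ = φ (fun k => ι (L k) ((Function.update (q L) k0 (blk d (q L k0)) k) (i (L k))))
      congr 1
      funext k
      by_cases hk : k = k0
      · subst hk
        rw [if_pos rfl, Function.update_self, blk_apply]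
        change _ = ι (L k) (d (i (L k)) ((Pi.single (i (L k)) (p (L k) (v k)) : ∀ j, W j)
          (i (L k))))
        rw [Pi.single_eq_same]
      · rw [if_neg hk, Function.update_of_ne hk]
        change _ = ι (L k) ((Pi.single (i (L k)) (p (L k) (v k)) : ∀ j, W j) (i (L k)))
        rw [Pi.single_eq_same]
    rw [Finset.sum_congr rfl (fun k0 _ => key k0), Finset.sum_comm]
    refine Finset.sum_eq_zero fun L _ => ?_
    rw [← Finset.mul_sum, hmem m (φL L) (hφL L) (q L), mul_zero]

end

end Pool.Agent.W522.H
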