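import Mathlib
import Pool.Agent.W522.H.H3
import Pool.Agent.W516.MT.AllFinal

/-!
# The Mumford-Tate conjecture from reflections: all types
-/

set_option linter.unusedSectionVars false

namespace Pool.Agent.W522.H

open Module TensorProduct Pool.Agent.H204R3.CM Pool.Agent.H204R3.SP Pool.Agent.H204R3.GP
  Pool.Agent.W516.KC Pool.Agent.W516.DR
open Pool.Agent.W516.FT (AlmostEquivariant)
open Pool.Agent.W522.T (TwistFree2)
open Pool.Agent.W522.U (LinesNotSelfDual hasProj_bcr)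

noncomputable section

/-- The main theorem: the Lie algebra contains the endomorphisms that kill a set of Tate forms, if
this holds for central endomorphisms. -/
theorem refl_all {k : Type*} [Field k] [CharZero k] {V : Type*} [AddCommGroup V]
    [Module k V] [FiniteDimensional k V]
    {Γ : Type*} [Group Γ] (ρ : Representation k Γ V) (χ : Γ →* k)
    (ω : V →ₗ[k] V →ₗ[k] k) (halt : ∀ v, ω v v = 0) (hnd : ∀ u, (∀ v, ω u v = 0) → u = 0)
    (hωρ : ∀ s u v, ω (ρ s u) (ρ s v) = χ s * ω u v)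
    (hss : FiniteIndexSemisimple ρ)
    (Ω : Type*) [Field Ω] [CharZero Ω] [Algebra k Ω] [Algebra.IsAlgebraic k Ω] [IsAlgClosed Ω]
    (hR1 : Elems (bcr ρ Ω) (bcc χ Ω)) (hR2 : LinesNotSelfDual (bcr ρ Ω) (bcc χ Ω))
    (hH : TwistFree2 (bcr ρ Ω) (bcc χ Ω))
    (S : ∀ m, MultilinearMap k (fun _ : Fin m × Fin 2 => V) k → Prop)
    (hS : ∀ m φ, S m φ → IsTate ρ χ m φ)
    (hcen : ∀ C : Module.End k V, AlmostEquivariant ρ C →
      (∀ Q : Module.End k V, AlmostEquivariant ρ Q → C * Q = Q * C) →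
      (∀ m φ, S m φ → Kills C φ) → C ∈ lieT ρ χ)
    (Z : Module.End k V) (hZs : ∀ u v, ω (Z u) v + ω u (Z v) = 0)
    (hZc : ∀ Q : Module.End k V, AlmostEquivariant ρ Q → Z * Q = Q * Z)
    (hZk : ∀ m φ, S m φ → Kills Z φ) : Z ∈ lieT ρ χ := by
  classical
  have hanti : ∀ u v, ω u v = -ω v u := by
    intro u v
    have h1 := halt (u + v)
    simp only [map_add, LinearMap.add_apply, halt, zero_add, add_zero] at h1
    exact eq_neg_of_add_eq_zero_left (by rw [← h1]; ring)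
  have hnd' : ∀ u, (∀ v, ω v u = 0) → u = 0 := by
    intro u hu
    apply hnd
    intro v
    rw [hanti, hu, neg_zero]
  let b := Module.finBasis k V
  have hproj : HasProj (bcr ρ Ω) := hasProj_bcr ρ Ω hss
  -- descent of almost equivariant endomorphisms
  have hdesc : ∀ (Q : Module.End Ω (Ω ⊗[k] V)), AlmostEquivariant (bcr ρ Ω) Q →
      ∀ lam : Ω →ₗ[k] k, AlmostEquivariant ρ (cmpE lam Q) := by
    rintro Q ⟨Δ, hΔ, hQ⟩ lam
    refine ⟨Δ, hΔ, fun s hs v => ?_⟩
    have h1 : Q * (ρ s).baseChange Ω = (ρ s).baseChange Ω * Q := LinearMap.ext fun v => hQ s hs v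
    exact congrArg (fun f : Module.End k V => f v) ((comm_iff (ρ s) Q).2 h1 lam)
  have hext : ∀ (Q : Module.End k V), AlmostEquivariant ρ Q →
      AlmostEquivariant (bcr ρ Ω) (Q.baseChange Ω) := by
    rintro Q ⟨Δ, hΔ, hQ⟩
    refine ⟨Δ, hΔ, fun s hs v => ?_⟩
    have h1 : Q * ρ s = ρ s * Q := LinearMap.ext fun v => hQ s hs v
    have h2 := congrArg (LinearMap.baseChange Ω) h1
    rw [LinearMap.baseChange_mul, LinearMap.baseChange_mul] at h2
    exact congrArg (fun f : Module.End Ω (Ω ⊗[k] V) => f v) h2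
  have hZs' : ∀ u w, bcb Ω ω (Z.baseChange Ω u) w + bcb Ω ω u (Z.baseChange Ω w) = 0 :=
    skew_ext (k := Ω) ω (bcb Ω ω) (fun u v => bcb_one ω u v) hZs
  have hZc' : ∀ Q, AlmostEquivariant (bcr ρ Ω) Q → ∀ v,
      Z.baseChange Ω (Q v) = Q (Z.baseChange Ω v) := by
    intro Q hQ v
    have h1 : Q * Z.baseChange Ω = Z.baseChange Ω * Q :=
      (comm_iff Z Q).1 fun lam => (hZc _ (hdesc Q hQ lam)).symm
    exact congrArg (fun f : Module.End Ω (Ω ⊗[k] V) => f v) h1.symm
  obtain ⟨C, hCalm, hCc, hY⟩ := decompose (R := bcr ρ Ω) (χ := bcc χ Ω) (bcb Ω ω)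
    (Pool.Agent.W522.U.bcb_nondeg_left ω hnd' hnd) (fun g u v => bcb_inv ρ χ ω hωρ g u v)
    hR1 hR2 hH hproj (Z.baseChange Ω) hZs' hZc'
  have hCcomm : ∀ Q, AlmostEquivariant (bcr ρ Ω) Q → C * Q = Q * C := fun Q hQ =>
    LinearMap.ext fun v => hCc Q hQ v
  -- kills
  have hsum : ∀ (m : ℕ) (φ : MultilinearMap k (fun _ : Fin m × Fin 2 => V) k),
      IsTate ρ χ m φ → (Kills (Z.baseChange Ω) (bcm (Ω := Ω) b φ) ↔
        Kills C (bcm (Ω := Ω) b φ)) := by
    intro m φ hφ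
    have h1 := hY m _ (bcm_tate b ρ χ φ hφ)
    have h2 : ∀ v : Fin m × Fin 2 → Ω ⊗[k] V, ∑ j, bcm (Ω := Ω) b φ (Function.update v j
        (Z.baseChange Ω (v j))) = ∑ j, bcm (Ω := Ω) b φ (Function.update v j (C (v j))) := by
      intro v
      rw [← sub_eq_zero, ← Finset.sum_sub_distrib, ← h1 v]
      refine Finset.sum_congr rfl fun j _ => ?_
      rw [LinearMap.sub_apply, MultilinearMap.map_update_sub]
    constructor
    · intro h v
      rw [← h2, h v]
    · intro h v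
      rw [h2, h v]
  have hCmem : ∀ lam : Ω →ₗ[k] k, cmpE lam C ∈ lieT ρ χ := by
    intro lam
    refine hcen _ (hdesc _ hCalm lam) (fun Q hQ => ?_) (fun m φ hφ => ?_)
    · exact (comm_iff Q C).2 (hCcomm _ (hext Q hQ)) lam
    · refine (kills_bcm_iff b φ C).1 ((hsum m φ (hS m φ hφ)).1 ?_) lam
      exact kills_ext _ φ (fun v => bcm_one b φ v) Z (hZk m φ hφ)
  intro m φ hφ
  have h1 : Kills (Z.baseChange Ω) (bcm (Ω := Ω) b φ) := (hsum m φ hφ).2
    ((kills_bcm_iff b φ C).2 fun lam => hCmem lam m φ hφ)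
  intro v
  have h2 := h1 (fun l => (1 : Ω) ⊗ₜ[k] v l)
  have h3 : ∀ j, Function.update (fun l => (1 : Ω) ⊗ₜ[k] v l) j
      (Z.baseChange Ω ((1 : Ω) ⊗ₜ[k] v j)) = fun l => (1 : Ω) ⊗ₜ[k] Function.update v j (Z (v j)) l := by
    intro j
    funext l
    by_cases hl : l = j
    · subst hl
      rw [Function.update_self, Function.update_self, LinearMap.baseChange_tmul]
    · rw [Function.update_of_ne hl, Function.update_of_ne hl]
  simp only [h3, bcm_one] at h2
  rw [← map_sum] at h2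
  exact (map_eq_zero_iff _ (algebraMap k Ω).injective).1 h2

end

end Pool.Agent.W522.H
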