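import Mathlib
import Pool.Agent.W522.H.H4

/-!
# The Mumford-Tate conjecture from reflections: all types
-/

set_option linter.unusedSectionVars false

namespace Pool.Agent.W522.H

open Module TensorProduct Pool.Agent.H204R3.SP Pool.Agent.H204R3.GP Pool.Agent.W516.KC
  Pool.Agent.W516.MTD Pool.Agent.W516.DR
open Pool.Agent.W516.FT (AlmostEquivariant)
open Pool.Agent.W516.MTM (almost_of_endos comm_endos' hc_iff)
open Pool.Agent.W522.T (TwistFree2)
open Pool.Agent.W522.U (LinesNotSelfDual)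

noncomputable section

variable {k : Type} [Field k] [CharZero k] {W T : Type} [AddCommGroup W] [Module ℚ W]
  [FiniteDimensional ℚ W] [AddCommGroup T] [Module ℂ T] (per : W →+ T)
  {Γ : Type} [Group Γ] (ρ : Representation k Γ (k ⊗[ℚ] W)) (χ : Γ →* k)
  (ω₀ : W →ₗ[ℚ] W →ₗ[ℚ] ℚ) (ω : k ⊗[ℚ] W →ₗ[k] k ⊗[ℚ] W →ₗ[k] k)
  (hH : IsHodgeBilinear per ω₀)
  (hωω : ∀ u v : W, ω ((1 : k) ⊗ₜ[ℚ] u) ((1 : k) ⊗ₜ[ℚ] v) = algebraMap ℚ k (ω₀ u v))
  (hωρ : ∀ s u v, ω (ρ s u) (ρ s v) = χ s * ω u v)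
  (hD : Deligne per ρ χ)

include hH hωω hωρ hD in
theorem mt_of_refl (hper : Pool.Agent.W516.MTD.IsRationalStructure per) (halt : ∀ v, ω v v = 0)
    (hnd : ∀ u, (∀ v, ω u v = 0) → u = 0)
    (hss : FiniteIndexSemisimple ρ) (hF : Faltings per ρ) (hC : Centres per ρ χ)
    (Ω : Type) [Field Ω] [CharZero Ω] [Algebra k Ω] [Algebra.IsAlgebraic k Ω] [IsAlgClosed Ω]
    (hR1 : Elems (bcr ρ Ω) (bcc χ Ω)) (hR2 : LinesNotSelfDual (bcr ρ Ω) (bcc χ Ω))
    (hT : TwistFree2 (bcr ρ Ω) (bcc χ Ω))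
    (m : ℕ) (φ : MultilinearMap k (fun _ : Fin m × Fin 2 => k ⊗[ℚ] W) k)
    (hφ : IsTateTensor ρ χ m φ) : Pool.Agent.W516.MTD.IsHodgeCombination per φ := by
  classical
  have hnd₀ : ∀ u, (∀ v, ω₀ u v = 0) → u = 0 := by
    intro u hu
    have h1 : (1 : k) ⊗ₜ[ℚ] u = 0 := by
      apply hnd
      have h2 : ω ((1 : k) ⊗ₜ[ℚ] u) = 0 := by
        refine TensorProduct.AlgebraTensorModule.ext fun c v => ?_
        have h3 : c ⊗ₜ[ℚ] v = c • ((1 : k) ⊗ₜ[ℚ] v) := by rw [smul_tmul', smul_eq_mul, mul_one]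
        rw [h3, map_smul, hωω, hu, map_zero, smul_zero]
        simp
      intro v
      rw [h2, LinearMap.zero_apply]
    let b := finBasis ℚ W
    apply b.repr.injective
    ext i
    have h2 := congrArg (fun z => (b.baseChange k).repr z i) h1
    simp only [Basis.baseChange_repr_tmul, map_zero, Finsupp.zero_apply] at h2
    rw [map_zero, Finsupp.zero_apply]
    rw [Algebra.smul_def, mul_one] at h2
    exact (map_eq_zero_iff _ (algebraMap ℚ k).injective).1 h2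
  have hmem : ∀ Z₀ : Module.End ℚ W, (∀ (m' : ℕ)
      (ψ : MultilinearMap ℚ (fun _ : Fin m' × Fin 2 => W) ℚ), IsHodgeTensor per ψ →
        Kills Z₀ ψ) → Z₀.baseChange k ∈ lieT ρ χ := by
    intro Z₀ hk
    have hZs : IsSkew ω (Z₀.baseChange k) :=
      skew_ext ω₀ ω hωω ((kills_one2 ω₀ Z₀).1 (hk 1 _ (one2_hodge per ω₀ hH)))
    refine refl_all ρ χ ω halt hnd hωρ hss Ω hR1 hR2 hT
      (fun m φ => Pool.Agent.W516.MTD.IsHodgeCombination per φ) (fun m φ hφ => ?_) (fun C hC1 hC2 hC3 => ?_)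
      (Z₀.baseChange k) hZs (fun Q hQ => ?_) (fun m φ hφ => ?_)
    · -- combinations of Hodge classes are Tate classes
      rw [hc_iff] at hφ
      induction hφ using Submodule.span_induction with
      | mem φ h =>
        obtain ⟨ψ, h1, h2⟩ := h
        exact hD m ψ h1 φ (fun v => by rw [h2 v, eq_ratCast])
      | zero =>
        refine ⟨⊤, inferInstance, fun s _ v => ?_⟩
        change (0 : k) = χ s ^ m * 0
        rw [mul_zero]
      | add a b _ _ ha hb =>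
        obtain ⟨Δ, hΔ, h1⟩ := ha
        obtain ⟨Δ', hΔ', h2⟩ := hb
        refine ⟨Δ ⊓ Δ', inferInstance, fun s hs v => ?_⟩
        change a _ + b _ = χ s ^ m * (a v + b v)
        rw [h1 s hs.1, h2 s hs.2, mul_add]
      | smul c a _ ha =>
        obtain ⟨Δ, hΔ, h1⟩ := ha
        refine ⟨Δ, hΔ, fun s hs v => ?_⟩
        change c * a _ = χ s ^ m * (c * a v)
        rw [h1 s hs]
        ring
    · refine hC C (hF C hC1) (fun Q hQ => ?_) hC3
      exact hC2 Q (almost_of_endos per ρ χ ω₀ ω hH hnd₀ hωω hωρ hD hQ)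
    · exact comm_endos' per ω₀ hH hnd₀ Z₀ hk (hF Q hQ)
    · exact kills_span (fun ψ => IsHodgeTensor per ψ) Z₀ (hk m) φ ((hc_iff per φ).1 hφ)
  rw [hc_iff]
  refine form_mem_span (fun ψ => IsHodgeTensor per ψ) φ fun lam => ?_
  refine hodge_of_kills per hper _ fun Z₀ hk => ?_
  exact kills_fcmp lam φ Z₀ (hmem Z₀ hk m φ hφ)

end

end Pool.Agent.W522.H
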